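import Pool.Agent.Lib.RealGap.Norm

/-!
# Reduction to box monomials
-/

namespace Pool.Agent.Lib.RealGap

open Polynomial

variable {n : ℕ}

/-- A monomial. -/
def mon (α : Fin n → ℕ) (x : Fin n → ℝ) : ℝ := ∏ i, x i ^ α i

/-- The degree of a monomial. -/
def dg (α : Fin n → ℕ) : ℕ := ∑ i, α i

theorem mon_add (α β : Fin n → ℕ) (x : Fin n → ℝ) : mon (α + β) x = mon α x * mon β x := by
  simp [mon, pow_add, Finset.prod_mul_distrib]

theorem dg_add (α β : Fin n → ℕ) : dg (α + β) = dg α + dg β := by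
  simp [dg, Finset.sum_add_distrib]

/-- Polynomials in `n` variables whose coefficients are polynomials in one variable. -/
abbrev YPoly (n : ℕ) : Type := List (ℤ[X] × (Fin n → ℕ))

/-- The value. -/
noncomputable def yval (q : YPoly n) (x : Fin n → ℝ) (η : ℝ) : ℝ :=
  (q.map (fun t => aeval η t.1 * mon t.2 x)).sum

/-- The norm. -/
noncomputable def ynorm (q : YPoly n) : ℕ := (q.map (fun t => l1 nmInt t.1)).sum

theorem lsum_mul_right {α : Type*} (l : List α) (f : α → ℝ) (c : ℝ) :
    (l.map f).sum * c = (l.map (fun a => f a * c)).sum := by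
  rw [List.sum_map_mul_right]

theorem aeval_lsum {α : Type*} (l : List α) (f : α → ℤ[X]) (η : ℝ) :
    aeval η (l.map f).sum = (l.map (fun a => aeval η (f a))).sum := by
  induction l with
  | nil => simp
  | cons a l ih => simp [ih]

theorem sum_lsum {α β : Type*} (s : Finset β) (l : List α) (f : α → β → ℝ) :
    ∑ b ∈ s, (l.map (fun a => f a b)).sum = (l.map (fun a => ∑ b ∈ s, f a b)).sum := by
  induction l with
  | nil => simp
  | cons a l ih => simp [Finset.sum_add_distrib, ih]

theorem sum_lsum_nat {α β : Type*} (s : Finset β) (l : List α) (f : α → β → ℕ) :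
    ∑ b ∈ s, (l.map (fun a => f a b)).sum = (l.map (fun a => ∑ b ∈ s, f a b)).sum := by
  induction l with
  | nil => simp
  | cons a l ih => simp [Finset.sum_add_distrib, ih]

theorem lsum_le {α : Type*} (l : List α) (f g : α → ℕ) (h : ∀ a ∈ l, f a ≤ g a) :
    (l.map f).sum ≤ (l.map g).sum := List.sum_le_sum h

theorem lsum_mul_nat {α : Type*} (l : List α) (f : α → ℕ) (c : ℕ) :
    (l.map (fun a => f a * c)).sum = (l.map f).sum * c := List.sum_map_mul_right ..

/-- Every monomial is a combination of box monomials. -/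
theorem red (L : ℕ) (hL : 1 ≤ L) (q : Fin n → YPoly n) (hq : ∀ i, ynorm (q i) ≤ L)
    (hd : ∀ i, ∀ t ∈ q i, dg t.2 ≤ 3) : ∀ (d : ℕ) (α : Fin n → ℕ), dg α = d →
    ∃ c : (Fin n → Fin 5) → ℤ[X], ∑ β, l1 nmInt (c β) ≤ L ^ d ∧
      ∀ (x : Fin n → ℝ) (η : ℝ), (∀ i, x i ^ 5 = yval (q i) x η) →
        mon α x = ∑ β, aeval η (c β) * mon (fun i => (β i : ℕ)) x := by
  classical
  intro d
  induction d using Nat.strong_induction_on with
  | _ d ih =>
  intro α hα
  by_cases hbox : ∀ i, α i < 5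
  · let β₀ : Fin n → Fin 5 := fun i => ⟨α i, hbox i⟩
    refine ⟨fun β => if β = β₀ then 1 else 0, ?_, fun x η _ => ?_⟩
    · have h1 : ∑ β : Fin n → Fin 5, l1 nmInt (if β = β₀ then (1 : ℤ[X]) else 0) =
          l1 nmInt (1 : ℤ[X]) := by
        rw [Finset.sum_eq_single β₀]
        · simp
        · intro b _ hb
          simp [hb, l1_zero]
        · simp
      rw [h1]
      exact ((nmPoly nmInt).one).trans (Nat.one_le_pow _ _ hL)
    · rw [Finset.sum_eq_single β₀]
      · simp [β₀]
      · intro b _ hb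
        simp [hb]
      · simp
  · push Not at hbox
    obtain ⟨i, hi⟩ := hbox
    let α' : Fin n → ℕ := Function.update α i (α i - 5)
    have hsplit : ∀ x : Fin n → ℝ, mon α x = mon α' x * x i ^ 5 := by
      intro x
      have e1 : mon α x = x i ^ α i * ∏ j ∈ Finset.univ.erase i, x j ^ α j :=
        (Finset.mul_prod_erase _ _ (Finset.mem_univ i)).symm
      have e2 : mon α' x = x i ^ (α i - 5) * ∏ j ∈ Finset.univ.erase i, x j ^ α j := by
        have : mon α' x = x i ^ α' i * ∏ j ∈ Finset.univ.erase i, x j ^ α' j :=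
          (Finset.mul_prod_erase _ _ (Finset.mem_univ i)).symm
        rw [this]
        congr 1
        · simp [α']
        · refine Finset.prod_congr rfl (fun j hj => ?_)
          simp [α', Function.update_of_ne (Finset.ne_of_mem_erase hj)]
      rw [e1, e2]
      have : x i ^ α i = x i ^ (α i - 5) * x i ^ 5 := by
        rw [← pow_add]
        congr 1
        omega
      rw [this]
      ring
    have hdeg : dg α' + 5 = d := by
      have e1 : dg α = α i + ∑ j ∈ Finset.univ.erase i, α j :=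
        (Finset.add_sum_erase _ _ (Finset.mem_univ i)).symm
      have e2 : dg α' = α i - 5 + ∑ j ∈ Finset.univ.erase i, α j := by
        have : dg α' = α' i + ∑ j ∈ Finset.univ.erase i, α' j :=
          (Finset.add_sum_erase _ _ (Finset.mem_univ i)).symm
        rw [this]
        congr 1
        · simp [α']
        · refine Finset.sum_congr rfl (fun j hj => ?_)
          simp [α', Function.update_of_ne (Finset.ne_of_mem_erase hj)]
      omega
    have hd2 : 2 ≤ d := by omega
    have hex : ∀ γ : Fin n → ℕ, ∃ c : (Fin n → Fin 5) → ℤ[X], dg γ ≤ 3 →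
        (∑ β, l1 nmInt (c β) ≤ L ^ (d - 1) ∧
        ∀ (x : Fin n → ℝ) (η : ℝ), (∀ i, x i ^ 5 = yval (q i) x η) →
          mon (α' + γ) x = ∑ β, aeval η (c β) * mon (fun i => (β i : ℕ)) x) := by
      intro γ
      by_cases hγ : dg γ ≤ 3
      · obtain ⟨c, hc1, hc2⟩ := ih (dg (α' + γ)) (by rw [dg_add]; omega) (α' + γ) rfl
        refine ⟨c, fun _ => ⟨hc1.trans (Nat.pow_le_pow_right hL ?_), hc2⟩⟩
        rw [dg_add]; omega
      · exact ⟨0, fun h => absurd h hγ⟩
    choose c hc using hex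
    refine ⟨fun β => ((q i).map (fun t => t.1 * c t.2 β)).sum, ?_, fun x η hx => ?_⟩
    · calc ∑ β, l1 nmInt ((q i).map (fun t => t.1 * c t.2 β)).sum
          ≤ ∑ β, ((q i).map (fun t => l1 nmInt t.1 * l1 nmInt (c t.2 β))).sum := by
            refine Finset.sum_le_sum (fun β _ => ?_)
            refine ((nmPoly nmInt).lsum (q i) (fun t => t.1 * c t.2 β)).trans ?_
            exact lsum_le _ _ _ (fun t _ => l1_mul nmInt _ _)
        _ = ((q i).map (fun t => ∑ β, l1 nmInt t.1 * l1 nmInt (c t.2 β))).sum :=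
            sum_lsum_nat _ _ _
        _ ≤ ((q i).map (fun t => l1 nmInt t.1 * L ^ (d - 1))).sum := by
            refine lsum_le _ _ _ (fun t ht => ?_)
            rw [← Finset.mul_sum]
            exact Nat.mul_le_mul_left _ (hc t.2 (hd i t ht)).1
        _ = ynorm (q i) * L ^ (d - 1) := lsum_mul_nat _ _ _
        _ ≤ L * L ^ (d - 1) := Nat.mul_le_mul_right _ (hq i)
        _ = L ^ d := by
            rw [← pow_succ']
            congr 1
            omega
    · rw [hsplit, hx i, yval, mul_comm, lsum_mul_right]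
      have h1 : ∀ t ∈ q i, aeval η t.1 * mon t.2 x * mon α' x =
          ∑ β, aeval η (t.1 * c t.2 β) * mon (fun i => (β i : ℕ)) x := by
        intro t ht
        have h2 := (hc t.2 (hd i t ht)).2 x η hx
        rw [mul_assoc, mul_comm (mon t.2 x), ← mon_add, h2, Finset.mul_sum]
        refine Finset.sum_congr rfl (fun β _ => ?_)
        rw [map_mul]
        ring
      rw [List.map_congr_left h1, ← sum_lsum]
      refine Finset.sum_congr rfl (fun β _ => ?_)
      rw [aeval_lsum, lsum_mul_right]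

/-- An integer polynomial as a list of terms. -/
abbrev LPoly (n : ℕ) : Type := List (ℤ × (Fin n → ℕ))

/-- The value. -/
noncomputable def lval (P : LPoly n) (x : Fin n → ℝ) : ℝ :=
  (P.map (fun t => (t.1 : ℝ) * mon t.2 x)).sum

/-- The norm. -/
def lnorm (P : LPoly n) : ℕ := (P.map (fun t => t.1.natAbs)).sum

/-- The multiplication by a polynomial on box monomials. -/
theorem exists_mat (L : ℕ) (hL : 1 ≤ L) (q : Fin n → YPoly n) (hq : ∀ i, ynorm (q i) ≤ L)
    (hd : ∀ i, ∀ t ∈ q i, dg t.2 ≤ 3) (P : LPoly n) (hP : ∀ t ∈ P, dg t.2 ≤ 4) :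
    ∃ M : Matrix (Fin n → Fin 5) (Fin n → Fin 5) ℤ[X],
      (∀ α, ∑ β, l1 nmInt (M α β) ≤ lnorm P * L ^ (4 * n + 4)) ∧
      ∀ (x : Fin n → ℝ) (η : ℝ), (∀ i, x i ^ 5 = yval (q i) x η) → ∀ α : Fin n → Fin 5,
        lval P x * mon (fun i => (α i : ℕ)) x =
          ∑ β, aeval η (M α β) * mon (fun i => (β i : ℕ)) x := by
  classical
  have hex : ∀ α : Fin n → ℕ, ∃ c : (Fin n → Fin 5) → ℤ[X],
      ∑ β, l1 nmInt (c β) ≤ L ^ dg α ∧
      ∀ (x : Fin n → ℝ) (η : ℝ), (∀ i, x i ^ 5 = yval (q i) x η) →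
        mon α x = ∑ β, aeval η (c β) * mon (fun i => (β i : ℕ)) x :=
    fun α => red L hL q hq hd _ α rfl
  choose c hc1 hc2 using hex
  refine ⟨fun α β => (P.map (fun t => C t.1 * c (t.2 + fun i => (α i : ℕ)) β)).sum, fun α => ?_,
    fun x η hx α => ?_⟩
  · calc ∑ β, l1 nmInt (P.map (fun t => C t.1 * c (t.2 + fun i => (α i : ℕ)) β)).sum
        ≤ ∑ β, (P.map (fun t => t.1.natAbs * l1 nmInt (c (t.2 + fun i => (α i : ℕ)) β))).sum := by
          refine Finset.sum_le_sum (fun β _ => ?_)
          refine ((nmPoly nmInt).lsum P (fun t => C t.1 * c (t.2 + fun i => (α i : ℕ)) β)).trans ?_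
          refine lsum_le _ _ _ (fun t _ => (l1_mul nmInt _ _).trans ?_)
          exact Nat.mul_le_mul_right _ (l1_C nmInt _)
      _ = (P.map (fun t => ∑ β, t.1.natAbs * l1 nmInt (c (t.2 + fun i => (α i : ℕ)) β))).sum :=
          sum_lsum_nat _ _ _
      _ ≤ (P.map (fun t => t.1.natAbs * L ^ (4 * n + 4))).sum := by
          refine lsum_le _ _ _ (fun t ht => ?_)
          rw [← Finset.mul_sum]
          refine Nat.mul_le_mul_left _ ((hc1 _).trans (Nat.pow_le_pow_right hL ?_))
          rw [dg_add]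
          have h1 := hP t ht
          have h2 : dg (fun i => (α i : ℕ)) ≤ ∑ _i : Fin n, 4 :=
            Finset.sum_le_sum (fun i _ => by have := (α i).2; omega)
          simp at h2
          omega
      _ = lnorm P * L ^ (4 * n + 4) := lsum_mul_nat _ _ _
  · rw [lval, lsum_mul_right]
    have h1 : ∀ t ∈ P, (t.1 : ℝ) * mon t.2 x * mon (fun i => (α i : ℕ)) x =
        ∑ β, aeval η (C t.1 * c (t.2 + fun i => (α i : ℕ)) β) * mon (fun i => (β i : ℕ)) x := by
      intro t ht
      rw [mul_assoc, ← mon_add, hc2 _ x η hx, Finset.mul_sum]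
      refine Finset.sum_congr rfl (fun β _ => ?_)
      rw [map_mul, aeval_C]
      simp only [algebraMap_int_eq, eq_intCast]
      ring
    rw [List.map_congr_left h1, ← sum_lsum]
    refine Finset.sum_congr rfl (fun β _ => ?_)
    rw [aeval_lsum, lsum_mul_right]

/-- Evaluation of a polynomial in two variables: the inner one at `v`, the outer one at `η`. -/
noncomputable def ev2 (v η : ℝ) : ℤ[X][X] →+* ℝ :=
  eval₂RingHom ((aeval v : ℤ[X] →ₐ[ℤ] ℝ) : ℤ[X] →+* ℝ) η

theorem ev2_C (v η : ℝ) (p : ℤ[X]) : ev2 v η (C p) = aeval v p := by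
  simp [ev2]

theorem ev2_map (v η : ℝ) (p : ℤ[X]) : ev2 v η (p.map (C : ℤ →+* ℤ[X])) = aeval η p := by
  simp only [ev2, coe_eval₂RingHom, eval₂_map]
  rw [aeval_def]
  congr 1
  ext a
  simp

theorem l1_map (p : ℤ[X]) : l1 (nmPoly nmInt) (p.map (C : ℤ →+* ℤ[X])) ≤ l1 nmInt p := by
  rw [l1_eq (nmPoly nmInt) (p.map (C : ℤ →+* ℤ[X])) (support_map_subset _ _), l1]
  refine Finset.sum_le_sum (fun i _ => ?_)
  rw [coeff_map]
  exact l1_C nmInt _

/-- The polynomial equation for the value of `P` at a point where all `x i ^ 5` are reduced. -/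
theorem exists_eqn (L : ℕ) (hL : 1 ≤ L) (q : Fin n → YPoly n) (hq : ∀ i, ynorm (q i) ≤ L)
    (hd : ∀ i, ∀ t ∈ q i, dg t.2 ≤ 3) (P : LPoly n) (hP : ∀ t ∈ P, dg t.2 ≤ 4) :
    ∃ D : ℤ[X][X], D ≠ 0 ∧ l1 (nmPoly nmInt) D ≤ (1 + lnorm P * L ^ (4 * n + 4)) ^ (5 ^ n) ∧
      ∀ (x : Fin n → ℝ) (η : ℝ), (∀ i, x i ^ 5 = yval (q i) x η) →
        ev2 (lval P x) η D = 0 := by
  classical
  obtain ⟨M, hM1, hM2⟩ := exists_mat L hL q hq hd P hP
  obtain ⟨A, hA⟩ : ∃ A : Matrix (Fin n → Fin 5) (Fin n → Fin 5) ℤ[X][X], ∀ α β, A α β =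
      (if α = β then C X else 0) - (M α β).map (C : ℤ →+* ℤ[X]) :=
    ⟨Matrix.of fun α β => (if α = β then C X else 0) - (M α β).map (C : ℤ →+* ℤ[X]),
      fun α β => rfl⟩
  refine ⟨A.det, ?_, ?_, ?_⟩
  · intro h0
    let f : ℤ[X][X] →+* ℤ[X] := evalRingHom 0
    have h1 : f A.det = 0 := by rw [h0, map_zero]
    rw [RingHom.map_det] at h1
    have h2 : f.mapMatrix A = Matrix.charmatrix (Matrix.of fun α β => (M α β).coeff 0) := by
      ext1 α β
      rw [RingHom.mapMatrix_apply, Matrix.map_apply, hA, map_sub, Matrix.charmatrix_apply,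
        Matrix.diagonal_apply, Matrix.of_apply]
      congr 1
      · split_ifs <;> simp [f]
      · simp only [f, coe_evalRingHom]
        rw [← coeff_zero_eq_eval_zero, coeff_map]
    rw [h2] at h1
    exact (Matrix.charpoly_monic (Matrix.of fun α β => (M α β).coeff 0)).ne_zero h1
  · have h1 : ∀ α, ∑ β, (nmPoly (nmPoly nmInt)).ν (A α β) ≤ 1 + lnorm P * L ^ (4 * n + 4) := by
      intro α
      have h2 : ∀ β, (nmPoly (nmPoly nmInt)).ν (A α β) ≤
          (if α = β then 1 else 0) + l1 nmInt (M α β) := by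
        intro β
        rw [hA, sub_eq_add_neg]
        refine ((nmPoly (nmPoly nmInt)).add _ _).trans ?_
        rw [(nmPoly (nmPoly nmInt)).neg]
        refine Nat.add_le_add ?_ (l1_map _)
        split_ifs
        · exact (l1_C (nmPoly nmInt) _).trans (l1_X nmInt)
        · exact (l1_zero (nmPoly nmInt)).le
      refine (Finset.sum_le_sum (fun β _ => h2 β)).trans ?_
      rw [Finset.sum_add_distrib]
      refine Nat.add_le_add ?_ (hM1 α)
      simp
    refine ((nmPoly (nmPoly nmInt)).det A h1).trans ?_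
    simp
  · intro x η hx
    rw [RingHom.map_det]
    rw [← Matrix.exists_mulVec_eq_zero_iff]
    refine ⟨fun β => mon (fun i => (β i : ℕ)) x, ?_, ?_⟩
    · intro h
      have := congrFun h (fun _ => 0)
      simp [mon] at this
    · ext α
      have h1 : ∀ β, ((ev2 (lval P x) η).mapMatrix A) α β =
          (if α = β then lval P x else 0) - aeval η (M α β) := by
        intro β
        rw [RingHom.mapMatrix_apply, Matrix.map_apply, hA, map_sub, ev2_map]
        congr 1
        split_ifs <;> simp [ev2_C]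
      simp only [Matrix.mulVec, dotProduct, h1, sub_mul, Finset.sum_sub_distrib, Pi.zero_apply]
      rw [← hM2 x η hx α, sub_eq_zero]
      rw [Finset.sum_eq_single α]
      · simp
      · intro β _ hβ
        simp [Ne.symm hβ]
      · simp

end Pool.Agent.Lib.RealGap
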