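import Pool.Agent.Lib.RealGap.Gap
import Pool.Agent.Lib.MP_0f8b55_lc.Layer1

/-!
# The gap theorem for addition and multiplication constraints
-/

namespace Pool.Agent.Lib.RealGap

open Pool.Agent.Lib.MP_0f8b55_lc

/-- The error in a constraint. -/
def err (x : ℕ → ℝ) : Con → ℝ
  | (false, a, b, c) => x a + x b - x c
  | (true, a, b, c) => x a * x b - x c

theorem err_eq_zero {x : ℕ → ℝ} {e : Con} : err x e = 0 ↔ e.holds x := by
  obtain ⟨t, a, b, c⟩ := e
  cases t <;> simp only [err, Con.holds, sub_eq_zero]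

/-- The total squared error, including the one in `x 1 = 1`. -/
def terr (L : List Con) (x : ℕ → ℝ) : ℝ := (x 1 - 1) ^ 2 + (L.map (fun e => err x e ^ 2)).sum

theorem lsum_sq_nonneg (L : List Con) (x : ℕ → ℝ) : 0 ≤ (L.map (fun e => err x e ^ 2)).sum := by
  induction L with
  | nil => simp
  | cons e L ih =>
    simp only [List.map_cons, List.sum_cons]
    positivity

theorem terr_pos {L : List Con} {x : ℕ → ℝ} (h : ¬ (x 1 = 1 ∧ ∀ e ∈ L, e.holds x)) :
    0 < terr L x := by
  by_contra hcon
  apply h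
  have h1 := lsum_sq_nonneg L x
  have h2 := sq_nonneg (x 1 - 1)
  unfold terr at hcon
  have h3 : (x 1 - 1) ^ 2 = 0 := by linarith
  have h4 : (L.map (fun e => err x e ^ 2)).sum = 0 := by linarith
  refine ⟨?_, ?_⟩
  · have := pow_eq_zero_iff (two_ne_zero) |>.1 h3
    linarith
  · clear h h1 h2 h3 hcon
    induction L with
    | nil => simp
    | cons e L ih =>
      simp only [List.map_cons, List.sum_cons] at h4
      have h5 := lsum_sq_nonneg L x
      have h6 := sq_nonneg (err x e)
      have h7 : err x e ^ 2 = 0 := by linarith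
      intro e' he'
      rcases List.mem_cons.1 he' with rfl | he'
      · exact err_eq_zero.1 (pow_eq_zero_iff (two_ne_zero) |>.1 h7)
      · exact ih (by linarith) e' he'

/-- The exponent vector of a variable. -/
def ex (n a : ℕ) : Fin n → ℕ := fun i => if (i : ℕ) = a then 1 else 0

theorem mon_ex {n a : ℕ} (ha : a < n) (x : ℕ → ℝ) :
    mon (ex n a) (fun i => x i) = x a := by
  unfold mon ex
  rw [Finset.prod_eq_single (⟨a, ha⟩ : Fin n)]
  · simp
  · intro b _ hb
    have : (b : ℕ) ≠ a := fun h => hb (Fin.ext h)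
    simp [this]
  · simp

theorem dg_ex (n a : ℕ) : dg (ex n a) ≤ 1 := by
  unfold dg ex
  by_cases ha : a < n
  · rw [Finset.sum_eq_single (⟨a, ha⟩ : Fin n)]
    · simp
    · intro b _ hb
      have : (b : ℕ) ≠ a := fun h => hb (Fin.ext h)
      simp [this]
    · simp
  · rw [Finset.sum_eq_zero]
    · exact Nat.zero_le _
    · intro b _
      have : (b : ℕ) ≠ a := by have := b.2; omega
      simp [this]

/-- The terms of a squared error. -/
def terms (n : ℕ) : Con → LPoly n
  | (false, a, b, c) => [(1, ex n a + ex n a), (1, ex n b + ex n b), (1, ex n c + ex n c),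
      (2, ex n a + ex n b), (-2, ex n a + ex n c), (-2, ex n b + ex n c)]
  | (true, a, b, c) => [(1, (ex n a + ex n b) + (ex n a + ex n b)),
      (-2, (ex n a + ex n b) + ex n c), (1, ex n c + ex n c)]

theorem lval_terms {n : ℕ} (x : ℕ → ℝ) (e : Con) (he : e.2.1 < n ∧ e.2.2.1 < n ∧ e.2.2.2 < n) :
    lval (terms n e) (fun i => x i) = err x e ^ 2 := by
  obtain ⟨t, a, b, c⟩ := e
  obtain ⟨ha, hb, hc⟩ := he
  simp only at ha hb hc
  cases t
  · simp only [lval, terms, List.map_cons, List.map_nil, List.sum_cons, List.sum_nil, mon_add,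
      mon_ex ha, mon_ex hb, mon_ex hc, err]
    push_cast
    ring
  · simp only [lval, terms, List.map_cons, List.map_nil, List.sum_cons, List.sum_nil, mon_add,
      mon_ex ha, mon_ex hb, mon_ex hc, err]
    push_cast
    ring

theorem dg_terms (n : ℕ) (e : Con) : ∀ t ∈ terms n e, dg t.2 ≤ 4 := by
  obtain ⟨t, a, b, c⟩ := e
  have ha := dg_ex n a
  have hb := dg_ex n b
  have hc := dg_ex n c
  intro u hu
  cases t
  · simp only [terms, List.mem_cons, List.not_mem_nil, or_false] at hu
    rcases hu with rfl | rfl | rfl | rfl | rfl | rfl <;> simp only [dg_add] <;> omega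
  · simp only [terms, List.mem_cons, List.not_mem_nil, or_false] at hu
    rcases hu with rfl | rfl | rfl <;> simp only [dg_add] <;> omega

theorem lnorm_terms (n : ℕ) (e : Con) : lnorm (terms n e) ≤ 9 := by
  obtain ⟨t, a, b, c⟩ := e
  cases t <;> simp [lnorm, terms]

theorem lval_append {n : ℕ} (P Q : LPoly n) (x : Fin n → ℝ) :
    lval (P ++ Q) x = lval P x + lval Q x := by
  simp [lval]

theorem lnorm_append {n : ℕ} (P Q : LPoly n) : lnorm (P ++ Q) = lnorm P + lnorm Q := by
  simp [lnorm]

/-- The polynomial of the total squared error. -/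
def tpoly (n : ℕ) (L : List Con) : LPoly n :=
  [(1, ex n 1 + ex n 1), (-2, ex n 1), (1, 0)] ++ L.flatMap (terms n)

theorem lval_tpoly {n : ℕ} (h1 : 1 < n) (L : List Con)
    (hL : ∀ e ∈ L, e.2.1 < n ∧ e.2.2.1 < n ∧ e.2.2.2 < n) (x : ℕ → ℝ) :
    lval (tpoly n L) (fun i => x i) = terr L x := by
  rw [tpoly, lval_append, terr]
  congr 1
  · simp only [lval, List.map_cons, List.map_nil, List.sum_cons, List.sum_nil, mon_add, mon_ex h1]
    simp [mon]
    ring
  · induction L with
    | nil => simp [lval]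
    | cons e L ih =>
      rw [List.flatMap_cons, lval_append, List.map_cons, List.sum_cons,
        lval_terms x e (hL e (List.mem_cons_self ..)),
        ih (fun e he => hL e (List.mem_cons_of_mem _ he))]

theorem dg_tpoly (n : ℕ) (L : List Con) : ∀ t ∈ tpoly n L, dg t.2 ≤ 4 := by
  intro t ht
  have h1 := dg_ex n 1
  simp only [tpoly, List.mem_append, List.mem_cons, List.not_mem_nil, or_false,
    List.mem_flatMap] at ht
  rcases ht with (rfl | rfl | rfl) | ⟨e, _, he⟩
  · simp only [dg_add]; omega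
  · simp only; omega
  · simp [dg]
  · exact dg_terms n e t he

theorem lnorm_tpoly (n : ℕ) (L : List Con) : lnorm (tpoly n L) ≤ 2 ^ (L.length + 4) := by
  have h1 : lnorm (L.flatMap (terms n)) ≤ 9 * L.length := by
    induction L with
    | nil => simp [lnorm]
    | cons e L ih =>
      rw [List.flatMap_cons, lnorm_append, List.length_cons]
      have := lnorm_terms n e
      omega
  have h2 : lnorm (tpoly n L) ≤ 4 + 9 * L.length := by
    rw [tpoly, lnorm_append]
    have : lnorm ([(1, ex n 1 + ex n 1), (-2, ex n 1), (1, 0)] : LPoly n) = 4 := by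
      simp [lnorm]
    omega
  have h3 : L.length + 1 ≤ 2 ^ L.length := Nat.lt_two_pow_self
  rw [pow_add]
  omega

/-- **Gap theorem for constraints.** If the constraints have no real solution with `x 1 = 1` then
the total squared error on the box of radius `R` is at least `R ^ (-2 ^ (4 n + m + 10))`. -/
theorem gap_cons {n R : ℕ} (L : List Con) (h1 : 1 < n)
    (hL : ∀ e ∈ L, e.2.1 < n ∧ e.2.2.1 < n ∧ e.2.2.2 < n)
    (hno : ¬ ∃ x : ℕ → ℝ, x 1 = 1 ∧ ∀ e ∈ L, e.holds x) (hR : 2 ≤ R) (x : ℕ → ℝ)
    (hx : ∀ i < n, |x i| ≤ R) :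
    1 ≤ (R : ℝ) ^ (2 ^ (4 * n + L.length + 10)) * terr L x := by
  have key := gap (n := n) (R := R) (s := L.length + 4) (tpoly n L) (dg_tpoly n L)
    (lnorm_tpoly n L) hR (fun y _ => ?_) (fun i => x i) (fun i => hx i i.2)
  · rw [lval_tpoly h1 L hL] at key
    have e : 4 * n + (L.length + 4) + 6 = 4 * n + L.length + 10 := by ring
    rwa [e] at key
  · obtain ⟨z, rfl⟩ : ∃ z : ℕ → ℝ, y = fun i : Fin n => z i := by
      refine ⟨fun k : ℕ => if h : k < n then y ⟨k, h⟩ else 0, ?_⟩
      funext i
      simp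
    rw [lval_tpoly h1 L hL]
    exact terr_pos (fun h => hno ⟨_, h⟩)

end Pool.Agent.Lib.RealGap
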