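import Pool.Agent.Lib.RealGap.Box

/-!
# An effective gap theorem for integer polynomials on a box
-/

namespace Pool.Agent.Lib.RealGap

open Polynomial Filter Topology

/-! ### Two lemmas on polynomials -/

theorem ev2_eq_sum (v η : ℝ) (D : ℤ[X][X]) :
    ev2 v η D = ∑ j ∈ Finset.range (D.natDegree + 1), aeval v (D.coeff j) * η ^ j := by
  simp only [ev2, coe_eval₂RingHom]
  rw [eval₂_eq_sum_range]
  rfl

/-- The leading coefficient vanishes in the limit. -/
theorem lead_eval (D : ℤ[X][X]) (v η : ℕ → ℝ) {μ : ℝ} (hv : Tendsto v atTop (𝓝 μ))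
    (hη : Tendsto η atTop atTop) (hf : ∃ᶠ k in atTop, ev2 (v k) (η k) D = 0) :
    aeval μ D.leadingCoeff = 0 := by
  have hc : ∀ j, Tendsto (fun k => aeval (v k) (D.coeff j)) atTop (𝓝 (aeval μ (D.coeff j))) := by
    intro j
    have h1 : Continuous (fun t : ℝ => aeval t (D.coeff j)) := by
      have : (fun t : ℝ => aeval t (D.coeff j)) =
          fun t : ℝ => ((D.coeff j).map (Int.castRingHom ℝ)).eval t := by
        funext t
        rw [aeval_def, eval_map]
        rfl
      rw [this]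
      exact Polynomial.continuous _
    exact (h1.tendsto μ).comp hv
  have hp : ∀ j ∈ Finset.range (D.natDegree + 1),
      Tendsto (fun k => aeval (v k) (D.coeff j) * ((η k) ^ j / (η k) ^ D.natDegree)) atTop
        (𝓝 (aeval μ (D.coeff j) * (if j = D.natDegree then 1 else 0))) := by
    intro j hj
    refine (hc j).mul ?_
    by_cases h : j = D.natDegree
    · rw [if_pos h, h]
      refine tendsto_const_nhds.congr' ?_
      filter_upwards [hη.eventually_gt_atTop 0] with k hk
      rw [div_self (pow_pos hk _).ne']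
    · rw [if_neg h]
      have hlt : j < D.natDegree := by
        have := Finset.mem_range.1 hj
        omega
      exact (tendsto_pow_div_pow_atTop_zero hlt).comp hη
  have hsum := tendsto_finsetSum _ hp
  have hlim : ∑ j ∈ Finset.range (D.natDegree + 1),
      aeval μ (D.coeff j) * (if j = D.natDegree then (1 : ℝ) else 0) = aeval μ D.leadingCoeff := by
    rw [Finset.sum_eq_single D.natDegree]
    · rw [if_pos rfl, mul_one]
      rfl
    · intro j _ hj
      simp [hj]
    · intro h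
      simp at h
  rw [hlim] at hsum
  have hfr : ∃ᶠ k in atTop, ∑ j ∈ Finset.range (D.natDegree + 1),
      aeval (v k) (D.coeff j) * ((η k) ^ j / (η k) ^ D.natDegree) ∈ ({0} : Set ℝ) := by
    refine hf.mono (fun k hk => ?_)
    rw [Set.mem_singleton_iff]
    have : ∑ j ∈ Finset.range (D.natDegree + 1),
        aeval (v k) (D.coeff j) * ((η k) ^ j / (η k) ^ D.natDegree) =
        ev2 (v k) (η k) D / (η k) ^ D.natDegree := by
      rw [ev2_eq_sum, Finset.sum_div]
      exact Finset.sum_congr rfl (fun j _ => by rw [mul_div_assoc])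
    rw [this, hk, zero_div]
  have := isClosed_singleton.mem_of_frequently_of_tendsto hfr hsum
  simpa using this

/-- A positive root of a nonzero integer polynomial is not small. -/
theorem root_bound (g : ℤ[X]) (hg : g ≠ 0) {μ : ℝ} (hμ : 0 < μ) (h : aeval μ g = 0) :
    1 ≤ (l1 nmInt g : ℝ) * μ := by
  classical
  set j := g.natTrailingDegree with hj
  have haj : g.coeff j ≠ 0 := by
    have := trailingCoeff_nonzero_iff_nonzero.2 hg
    exact this
  have hjs : j ∈ g.support := mem_support_iff.2 haj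
  have h1 : (1 : ℝ) ≤ |(g.coeff j : ℝ)| := by
    have := Int.one_le_abs haj
    exact_mod_cast this
  have hcast : ∀ i, ((nmInt.ν (g.coeff i) : ℕ) : ℝ) = |(g.coeff i : ℝ)| := by
    intro i
    have : ((g.coeff i).natAbs : ℤ) = |g.coeff i| := Int.natCast_natAbs _
    have h2 : (((g.coeff i).natAbs : ℤ) : ℝ) = ((|g.coeff i| : ℤ) : ℝ) := by rw [this]
    simp [nmInt]
  have hl1 : (l1 nmInt g : ℝ) = ∑ i ∈ g.support, |(g.coeff i : ℝ)| := by
    rw [l1, Nat.cast_sum]
    exact Finset.sum_congr rfl (fun i _ => hcast i)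
  have hl1' : |(g.coeff j : ℝ)| ≤ l1 nmInt g := by
    rw [hl1]
    exact Finset.single_le_sum (f := fun i => |(g.coeff i : ℝ)|) (fun _ _ => abs_nonneg _) hjs
  rcases le_or_gt 1 μ with hμ1 | hμ1
  · have := h1.trans hl1'
    nlinarith
  · have h2 : ∑ i ∈ g.support, (g.coeff i : ℝ) * μ ^ i = 0 := by
      rw [← h, aeval_eq_sum_range' (n := g.natDegree + 1) (Nat.lt_succ_self _)]
      have : g.support ⊆ Finset.range (g.natDegree + 1) := supp_subset_range (Nat.lt_succ_self _)
      rw [Finset.sum_subset this]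
      · exact Finset.sum_congr rfl (fun i _ => by simp)
      · intro i _ hi
        simp [notMem_support_iff.1 hi]
    rw [← Finset.add_sum_erase _ _ hjs] at h2
    have h3 : |(g.coeff j : ℝ)| * μ ^ j ≤ (l1 nmInt g : ℝ) * μ ^ (j + 1) := by
      calc |(g.coeff j : ℝ)| * μ ^ j = |(g.coeff j : ℝ) * μ ^ j| := by
            rw [abs_mul, abs_of_pos (pow_pos hμ j)]
        _ = |∑ i ∈ g.support.erase j, (g.coeff i : ℝ) * μ ^ i| := by
            rw [show (g.coeff j : ℝ) * μ ^ j = -∑ i ∈ g.support.erase j, (g.coeff i : ℝ) * μ ^ i by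
              linarith, abs_neg]
        _ ≤ ∑ i ∈ g.support.erase j, |(g.coeff i : ℝ) * μ ^ i| := Finset.abs_sum_le_sum_abs _ _
        _ ≤ ∑ i ∈ g.support.erase j, |(g.coeff i : ℝ)| * μ ^ (j + 1) := by
            refine Finset.sum_le_sum (fun i hi => ?_)
            rw [abs_mul, abs_of_pos (pow_pos hμ i)]
            refine mul_le_mul_of_nonneg_left ?_ (abs_nonneg _)
            refine pow_le_pow_of_le_one hμ.le hμ1.le ?_
            have hi1 := Finset.ne_of_mem_erase hi
            have hi2 : j ≤ i := natTrailingDegree_le_of_mem_supp _ (Finset.mem_of_mem_erase hi)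
            omega
        _ ≤ ∑ i ∈ g.support, |(g.coeff i : ℝ)| * μ ^ (j + 1) :=
            Finset.sum_le_sum_of_subset_of_nonneg (Finset.erase_subset _ _)
              (fun i _ _ => mul_nonneg (abs_nonneg _) (pow_pos hμ _).le)
        _ = _ := by rw [← Finset.sum_mul, hl1]
    have h4 : 0 < μ ^ j := pow_pos hμ j
    have h5 : |(g.coeff j : ℝ)| ≤ (l1 nmInt g : ℝ) * μ := by
      rw [pow_succ, mul_comm (μ ^ j), ← mul_assoc] at h3
      exact le_of_mul_le_mul_right h3 h4
    linarith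

/-! ### Derivatives -/

variable {n : ℕ}

/-- Lower the exponent `i`. -/
def dec (i : Fin n) (α : Fin n → ℕ) : Fin n → ℕ :=
  if α i = 0 then 0 else Function.update α i (α i - 1)

theorem dg_dec (i : Fin n) (α : Fin n → ℕ) (h : dg α ≤ 4) : dg (dec i α) ≤ 3 := by
  unfold dec
  split_ifs with h0
  · simp [dg]
  · have e1 : dg α = α i + ∑ j ∈ Finset.univ.erase i, α j :=
      (Finset.add_sum_erase _ _ (Finset.mem_univ i)).symm
    have e2 : dg (Function.update α i (α i - 1)) =
        α i - 1 + ∑ j ∈ Finset.univ.erase i, α j := by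
      rw [dg, ← Finset.add_sum_erase _ _ (Finset.mem_univ i)]
      congr 1
      · simp
      · refine Finset.sum_congr rfl (fun j hj => ?_)
        simp [Function.update_of_ne (Finset.ne_of_mem_erase hj)]
    omega

theorem hasDerivAt_mon (α : Fin n → ℕ) (x : Fin n → ℝ) (i : Fin n) :
    HasDerivAt (fun s => mon α (Function.update x i s)) ((α i : ℝ) * mon (dec i α) x) (x i) := by
  have h1 : ∀ s, mon α (Function.update x i s) =
      s ^ α i * ∏ j ∈ Finset.univ.erase i, x j ^ α j := by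
    intro s
    rw [mon, ← Finset.mul_prod_erase _ _ (Finset.mem_univ i)]
    congr 1
    · simp
    · refine Finset.prod_congr rfl (fun j hj => ?_)
      simp [Function.update_of_ne (Finset.ne_of_mem_erase hj)]
  have h2 : (α i : ℝ) * mon (dec i α) x =
      (α i : ℝ) * x i ^ (α i - 1) * ∏ j ∈ Finset.univ.erase i, x j ^ α j := by
    by_cases h0 : α i = 0
    · simp [h0]
    · rw [mul_assoc]
      congr 1
      rw [mon, ← Finset.mul_prod_erase _ _ (Finset.mem_univ i)]
      congr 1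
      · simp [dec, h0]
      · refine Finset.prod_congr rfl (fun j hj => ?_)
        simp [dec, h0, Function.update_of_ne (Finset.ne_of_mem_erase hj)]
  rw [h2]
  simp only [h1]
  exact (hasDerivAt_pow (α i) (x i)).mul_const _

theorem hasDerivAt_lval (P : LPoly n) (x : Fin n → ℝ) (i : Fin n) :
    HasDerivAt (fun s => lval P (Function.update x i s))
      (P.map (fun t => (t.1 : ℝ) * ((t.2 i : ℝ) * mon (dec i t.2) x))).sum (x i) := by
  induction P with
  | nil => simpa [lval] using hasDerivAt_const (x i) (0 : ℝ)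
  | cons t P ih =>
    simp only [lval, List.map_cons, List.sum_cons] at ih ⊢
    exact ((hasDerivAt_mon t.2 x i).const_mul _).add ih

/-- `-Y` times the derivative of `P`. -/
noncomputable def dpoly (P : LPoly n) (i : Fin n) : YPoly n :=
  P.map (fun t => (C (-(t.1 * (t.2 i : ℤ))) * X, dec i t.2))

theorem yval_dpoly (P : LPoly n) (i : Fin n) (x : Fin n → ℝ) (η : ℝ) :
    yval (dpoly P i) x η =
      -η * (P.map (fun t => (t.1 : ℝ) * ((t.2 i : ℝ) * mon (dec i t.2) x))).sum := by
  rw [yval, dpoly, List.map_map, mul_comm, lsum_mul_right]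
  congr 1
  refine List.map_congr_left (fun t _ => ?_)
  rw [Function.comp_apply, map_mul, aeval_C, aeval_X]
  simp only [algebraMap_int_eq, eq_intCast]
  push_cast
  ring

theorem ynorm_dpoly (P : LPoly n) (hP : ∀ t ∈ P, dg t.2 ≤ 4) (i : Fin n) :
    ynorm (dpoly P i) ≤ 4 * lnorm P := by
  rw [ynorm, dpoly, List.map_map, lnorm, mul_comm, ← lsum_mul_nat]
  refine lsum_le _ _ _ (fun t ht => ?_)
  simp only [Function.comp_apply]
  refine (l1_mul nmInt _ _).trans ?_
  have h1 : l1 nmInt (C (-(t.1 * (t.2 i : ℤ)))) ≤ t.1.natAbs * t.2 i := by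
    refine (l1_C nmInt _).trans ?_
    simp [nmInt, Int.natAbs_mul]
  have h2 : t.2 i ≤ 4 := (Finset.single_le_sum (f := t.2) (fun _ _ => Nat.zero_le _)
    (Finset.mem_univ i)).trans (hP t ht)
  calc _ ≤ (t.1.natAbs * t.2 i) * 1 := Nat.mul_le_mul h1 (l1_X nmInt)
    _ ≤ t.1.natAbs * 4 := by rw [mul_one]; exact Nat.mul_le_mul_left _ h2

/-- The possible relations for `x i ^ 5`. -/
noncomputable def qq (P : LPoly n) (R : ℕ) (τ : Fin n → Fin 3) (i : Fin n) : YPoly n :=
  if τ i = 0 then [(C ((R : ℤ) ^ 5), 0)] else if τ i = 1 then [(C (-(R : ℤ) ^ 5), 0)]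
  else dpoly P i

theorem ynorm_qq (P : LPoly n) (hP : ∀ t ∈ P, dg t.2 ≤ 4) (R : ℕ) (τ : Fin n → Fin 3)
    (i : Fin n) : ynorm (qq P R τ i) ≤ 4 * lnorm P + R ^ 5 := by
  unfold qq
  split_ifs
  · have := l1_C nmInt ((R : ℤ) ^ 5)
    simp only [nmInt, Int.natAbs_pow, Int.natAbs_natCast] at this
    simp only [ynorm, List.map_cons, List.map_nil, List.sum_cons, List.sum_nil, add_zero]
    have h2 : l1 nmInt (C ((R : ℤ) ^ 5)) ≤ R ^ 5 := this
    omega
  · have := l1_C nmInt (-(R : ℤ) ^ 5)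
    simp only [nmInt, Int.natAbs_neg, Int.natAbs_pow, Int.natAbs_natCast] at this
    simp only [ynorm, List.map_cons, List.map_nil, List.sum_cons, List.sum_nil, add_zero]
    have h2 : l1 nmInt (C (-(R : ℤ) ^ 5)) ≤ R ^ 5 := this
    omega
  · have := ynorm_dpoly P hP i
    omega

theorem dg_qq (P : LPoly n) (hP : ∀ t ∈ P, dg t.2 ≤ 4) (R : ℕ) (τ : Fin n → Fin 3)
    (i : Fin n) : ∀ t ∈ qq P R τ i, dg t.2 ≤ 3 := by
  intro t ht
  unfold qq at ht
  split_ifs at ht
  · simp only [List.mem_cons, List.not_mem_nil, or_false] at ht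
    subst ht
    simp [dg]
  · simp only [List.mem_cons, List.not_mem_nil, or_false] at ht
    subst ht
    simp [dg]
  · simp only [dpoly, List.mem_map] at ht
    obtain ⟨u, hu, rfl⟩ := ht
    exact dg_dec i _ (hP u hu)

theorem continuous_lval (P : LPoly n) : Continuous (lval P) := by
  induction P with
  | nil =>
    have : lval ([] : LPoly n) = fun _ => 0 := by
      funext x
      simp [lval]
    rw [this]
    exact continuous_const
  | cons t P ih =>
    have h1 : Continuous (fun x => (t.1 : ℝ) * mon t.2 x) :=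
      continuous_const.mul (continuous_finsetProd _ (fun i _ => (continuous_apply i).pow _))
    have : lval (t :: P) = fun x => (t.1 : ℝ) * mon t.2 x + lval P x := by
      funext x
      simp [lval]
    rw [this]
    exact h1.add ih

/-- A minimiser of the perturbed polynomial on the box. -/
theorem exists_min (P : LPoly n) (R : ℕ) {η : ℝ} (hη : 0 < η) :
    ∃ x : Fin n → ℝ, (∀ i, |x i| ≤ R) ∧
      (∀ y : Fin n → ℝ, (∀ i, |y i| ≤ R) → lval P x ≤ lval P y + n * (R : ℝ) ^ 6 / (6 * η)) ∧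
      ∃ τ : Fin n → Fin 3, ∀ i, x i ^ 5 = yval (qq P R τ i) x η := by
  classical
  let F : (Fin n → ℝ) → ℝ := fun x => lval P x + (1 / (6 * η)) * ∑ i, x i ^ 6
  have hF : Continuous F := (continuous_lval P).add
    (continuous_const.mul (continuous_finsetSum _ (fun i _ => (continuous_apply i).pow _)))
  have hbox : ∀ x : Fin n → ℝ, x ∈ Set.Icc (fun _ : Fin n => -(R : ℝ)) (fun _ => (R : ℝ)) ↔
      ∀ i, |x i| ≤ R := by
    intro x
    simp only [Set.mem_Icc, Pi.le_def, abs_le]
    exact ⟨fun h i => ⟨h.1 i, h.2 i⟩, fun h => ⟨fun i => (h i).1, fun i => (h i).2⟩⟩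
  obtain ⟨x, hx, hmin⟩ := (isCompact_Icc (a := fun _ : Fin n => -(R : ℝ))
    (b := fun _ : Fin n => (R : ℝ))).exists_isMinOn ⟨0, by rw [hbox]; simp⟩ hF.continuousOn
  rw [hbox] at hx
  have hmin' : ∀ y : Fin n → ℝ, (∀ i, |y i| ≤ R) → F x ≤ F y := fun y hy =>
    hmin ((hbox y).2 hy)
  refine ⟨x, hx, ?_, ?_⟩
  · intro y hy
    have h1 := hmin' y hy
    have h2 : (0 : ℝ) ≤ (1 / (6 * η)) * ∑ i, x i ^ 6 := by
      refine mul_nonneg (by positivity) (Finset.sum_nonneg (fun i _ => ?_))
      have : x i ^ 6 = (x i ^ 3) ^ 2 := by ring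
      rw [this]
      positivity
    have h3 : (1 / (6 * η)) * ∑ i, y i ^ 6 ≤ n * (R : ℝ) ^ 6 / (6 * η) := by
      have h4 : ∑ i, y i ^ 6 ≤ ∑ _i : Fin n, (R : ℝ) ^ 6 := by
        refine Finset.sum_le_sum (fun i _ => ?_)
        have h5 : y i ^ 6 = |y i| ^ 6 := by
          rw [← abs_pow]
          exact (abs_of_nonneg (by positivity)).symm
        rw [h5]
        exact pow_le_pow_left₀ (abs_nonneg _) (hy i) 6
      rw [Finset.sum_const, Finset.card_univ, Fintype.card_fin, nsmul_eq_mul] at h4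
      have : (1 / (6 * η)) * ∑ i, y i ^ 6 ≤ (1 / (6 * η)) * (n * (R : ℝ) ^ 6) :=
        mul_le_mul_of_nonneg_left h4 (by positivity)
      refine this.trans (le_of_eq ?_)
      ring
    simp only [F] at h1
    linarith
  · have hcase : ∀ i, ∃ t : Fin 3, x i ^ 5 = yval (if t = 0 then [(C ((R : ℤ) ^ 5), 0)] else
        if t = 1 then [(C (-(R : ℤ) ^ 5), 0)] else dpoly P i) x η := by
      intro i
      rcases eq_or_ne (x i) R with h | h
      · refine ⟨0, ?_⟩
        simp [yval, mon, h]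
      rcases eq_or_ne (x i) (-R) with h' | h'
      · refine ⟨1, ?_⟩
        simp [yval, mon, h']
        ring
      refine ⟨2, ?_⟩
      have h2 : (if (2 : Fin 3) = 0 then [(C ((R : ℤ) ^ 5), 0)] else
        if (2 : Fin 3) = 1 then [(C (-(R : ℤ) ^ 5), 0)] else dpoly P i) = dpoly P i := by
        rw [if_neg (by decide), if_neg (by decide)]
      rw [h2, yval_dpoly]
      have hi := abs_le.1 (hx i)
      have hlt1 : x i < R := lt_of_le_of_ne hi.2 h
      have hlt2 : -(R : ℝ) < x i := lt_of_le_of_ne hi.1 (Ne.symm h')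
      have hloc : IsLocalMin (fun s => F (Function.update x i s)) (x i) := by
        have hmem : Set.Ioo (-(R : ℝ)) R ∈ 𝓝 (x i) := Ioo_mem_nhds hlt2 hlt1
        filter_upwards [hmem] with s hs
        rw [Function.update_eq_self]
        refine hmin' _ (fun j => ?_)
        by_cases hj : j = i
        · subst hj
          simp only [Function.update_self]
          exact abs_le.2 ⟨hs.1.le, hs.2.le⟩
        · rw [Function.update_of_ne hj]
          exact hx j
      have hd1 := hasDerivAt_lval P x i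
      have hd2 : HasDerivAt (fun s => ∑ j, (Function.update x i s) j ^ 6) (6 * x i ^ 5) (x i) := by
        have h6 : ∀ s, ∑ j, (Function.update x i s) j ^ 6 =
            s ^ 6 + ∑ j ∈ Finset.univ.erase i, x j ^ 6 := by
          intro s
          rw [← Finset.add_sum_erase _ _ (Finset.mem_univ i)]
          congr 1
          · simp
          · refine Finset.sum_congr rfl (fun j hj => ?_)
            simp [Function.update_of_ne (Finset.ne_of_mem_erase hj)]
        simp only [h6]
        have := (hasDerivAt_pow 6 (x i)).add_const (∑ j ∈ Finset.univ.erase i, x j ^ 6)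
        simpa using this
      have hd := hd1.add (hd2.const_mul (1 / (6 * η)))
      have h0 := hloc.hasDerivAt_eq_zero hd
      have h7 : x i ^ 5 = η * (1 / (6 * η) * (6 * x i ^ 5)) := by
        field_simp
      rw [h7]
      have h8 : 1 / (6 * η) * (6 * x i ^ 5) =
          -(P.map (fun t => (t.1 : ℝ) * ((t.2 i : ℝ) * mon (dec i t.2) x))).sum := by linarith
      rw [h8]
      ring
    choose τ hτ using hcase
    exact ⟨τ, fun i => hτ i⟩

/-- **Gap theorem.** -/
theorem gap {R s : ℕ} (P : LPoly n) (hP : ∀ t ∈ P, dg t.2 ≤ 4) (hs : lnorm P ≤ 2 ^ s) (hR : 2 ≤ R)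
    (hpos : ∀ x : Fin n → ℝ, (∀ i, |x i| ≤ R) → 0 < lval P x) (x : Fin n → ℝ)
    (hx : ∀ i, |x i| ≤ R) : 1 ≤ (R : ℝ) ^ (2 ^ (4 * n + s + 6)) * lval P x := by
  classical
  have hR1 : 1 ≤ R := by omega
  set L := 4 * lnorm P + R ^ 5 with hL
  have hL1 : 1 ≤ L := by
    have : 1 ≤ R ^ 5 := Nat.one_le_pow _ _ hR1
    omega
  -- the minimum
  have hbox : ∀ x : Fin n → ℝ, x ∈ Set.Icc (fun _ : Fin n => -(R : ℝ)) (fun _ => (R : ℝ)) ↔
      ∀ i, |x i| ≤ R := by
    intro x
    simp only [Set.mem_Icc, Pi.le_def, abs_le]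
    exact ⟨fun h i => ⟨h.1 i, h.2 i⟩, fun h => ⟨fun i => (h i).1, fun i => (h i).2⟩⟩
  obtain ⟨x₀, hx₀, hmin⟩ := (isCompact_Icc (a := fun _ : Fin n => -(R : ℝ))
    (b := fun _ : Fin n => (R : ℝ))).exists_isMinOn ⟨0, by rw [hbox]; simp⟩
    (continuous_lval P).continuousOn
  rw [hbox] at hx₀
  have hmin' : ∀ y : Fin n → ℝ, (∀ i, |y i| ≤ R) → lval P x₀ ≤ lval P y := fun y hy =>
    hmin ((hbox y).2 hy)
  -- perturbed minimisers
  have hη : ∀ k : ℕ, (0 : ℝ) < (k : ℝ) + 1 := fun k => by positivity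
  choose y hy1 hy2 τ hy3 using fun k : ℕ => exists_min P R (hη k)
  choose D hD1 hD2 hD3 using fun t : Fin n → Fin 3 =>
    exists_eqn L hL1 (qq P R t) (ynorm_qq P hP R t) (dg_qq P hP R t) P hP
  obtain ⟨t, ht⟩ : ∃ t, ∃ᶠ k in atTop, τ k = t := by
    by_contra hcon
    push Not at hcon
    have := Filter.eventually_all.2 hcon
    obtain ⟨k, hk⟩ := this.exists
    exact hk (τ k) rfl
  have htend : Tendsto (fun k => lval P (y k)) atTop (𝓝 (lval P x₀)) := by
    have h1 : Tendsto (fun k : ℕ => lval P x₀ + (n * (R : ℝ) ^ 6 / 6) * (1 / ((k : ℝ) + 1))) atTop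
        (𝓝 (lval P x₀ + (n * (R : ℝ) ^ 6 / 6) * 0)) :=
      tendsto_const_nhds.add (tendsto_one_div_add_atTop_nhds_zero_nat.const_mul _)
    rw [mul_zero, add_zero] at h1
    refine tendsto_of_tendsto_of_tendsto_of_le_of_le tendsto_const_nhds h1
      (fun k => hmin' _ (hy1 k)) (fun k => ?_)
    have := hy2 k x₀ hx₀
    refine this.trans (le_of_eq ?_)
    have : (k : ℝ) + 1 ≠ 0 := (hη k).ne'
    field_simp
  have htop : Tendsto (fun k : ℕ => (k : ℝ) + 1) atTop atTop :=
    tendsto_atTop_add_const_right _ _ tendsto_natCast_atTop_atTop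
  have hroot := lead_eval (D t) _ _ htend htop (ht.mono (fun k hk => by
    have := hD3 t (y k) ((k : ℝ) + 1) (by rw [← hk]; exact hy3 k)
    exact this))
  have hbd := root_bound (D t).leadingCoeff (leadingCoeff_ne_zero.2 (hD1 t)) (hpos x₀ hx₀) hroot
  have h2 : l1 nmInt (D t).leadingCoeff ≤ (1 + lnorm P * L ^ (4 * n + 4)) ^ (5 ^ n) :=
    (l1_coeff (nmPoly nmInt) (D t) _).trans (hD2 t)
  -- numerical estimate
  have hLb : L ≤ R ^ (s + 6) := by
    have e1 : 4 * lnorm P ≤ R ^ (s + 5) := by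
      calc 4 * lnorm P ≤ 4 * 2 ^ s := Nat.mul_le_mul_left _ hs
        _ = 2 ^ (s + 2) := by ring
        _ ≤ 2 ^ (s + 5) := Nat.pow_le_pow_right (by norm_num) (by omega)
        _ ≤ R ^ (s + 5) := Nat.pow_le_pow_left hR _
    have e2 : R ^ 5 ≤ R ^ (s + 5) := Nat.pow_le_pow_right hR1 (by omega)
    calc L ≤ 2 * R ^ (s + 5) := by omega
      _ ≤ R * R ^ (s + 5) := Nat.mul_le_mul_right _ hR
      _ = R ^ (s + 6) := by ring
  have hH : (1 + lnorm P * L ^ (4 * n + 4)) ^ (5 ^ n) ≤ R ^ (2 ^ (4 * n + s + 6)) := by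
    have e1 : lnorm P * L ^ (4 * n + 4) ≤ R ^ (s + (s + 6) * (4 * n + 4)) := by
      calc lnorm P * L ^ (4 * n + 4) ≤ R ^ s * (R ^ (s + 6)) ^ (4 * n + 4) :=
            Nat.mul_le_mul (hs.trans (Nat.pow_le_pow_left hR _)) (Nat.pow_le_pow_left hLb _)
        _ = _ := by rw [← pow_mul, ← pow_add]
    have e2 : 1 + lnorm P * L ^ (4 * n + 4) ≤ R ^ (1 + (s + (s + 6) * (4 * n + 4))) := by
      have : 1 ≤ R ^ (s + (s + 6) * (4 * n + 4)) := Nat.one_le_pow _ _ hR1
      calc 1 + lnorm P * L ^ (4 * n + 4) ≤ 2 * R ^ (s + (s + 6) * (4 * n + 4)) := by omega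
        _ ≤ R * R ^ (s + (s + 6) * (4 * n + 4)) := Nat.mul_le_mul_right _ hR
        _ = _ := by rw [← pow_succ', add_comm]
    refine (Nat.pow_le_pow_left e2 _).trans ?_
    rw [← pow_mul]
    refine Nat.pow_le_pow_right hR1 ?_
    have e3 : 5 ^ n ≤ 2 ^ (3 * n) := by
      rw [pow_mul]
      exact Nat.pow_le_pow_left (by norm_num) n
    have e4 : s + 7 ≤ 2 ^ (s + 3) := by
      have : s + 1 ≤ 2 ^ s := Nat.lt_two_pow_self
      rw [pow_add]
      omega
    have e5 : 4 * n + 5 ≤ 2 ^ (n + 3) := by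
      have : n + 1 ≤ 2 ^ n := Nat.lt_two_pow_self
      rw [pow_add]
      omega
    have e6 : 1 + (s + (s + 6) * (4 * n + 4)) ≤ (s + 7) * (4 * n + 5) := by nlinarith
    calc (1 + (s + (s + 6) * (4 * n + 4))) * 5 ^ n
        ≤ ((s + 7) * (4 * n + 5)) * 2 ^ (3 * n) := Nat.mul_le_mul e6 e3
      _ ≤ (2 ^ (s + 3) * 2 ^ (n + 3)) * 2 ^ (3 * n) :=
          Nat.mul_le_mul_right _ (Nat.mul_le_mul e4 e5)
      _ = 2 ^ (4 * n + s + 6) := by
          rw [← pow_add, ← pow_add]
          congr 1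
          omega
  have h3 : ((l1 nmInt (D t).leadingCoeff : ℕ) : ℝ) ≤ (R : ℝ) ^ (2 ^ (4 * n + s + 6)) := by
    exact_mod_cast h2.trans hH
  have h4 := hpos x₀ hx₀
  have h5 := hmin' x hx
  calc (1 : ℝ) ≤ (l1 nmInt (D t).leadingCoeff : ℝ) * lval P x₀ := hbd
    _ ≤ (R : ℝ) ^ (2 ^ (4 * n + s + 6)) * lval P x₀ := mul_le_mul_of_nonneg_right h3 h4.le
    _ ≤ _ := mul_le_mul_of_nonneg_left h5 (by positivity)

end Pool.Agent.Lib.RealGap
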