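import Mathlib

/-!
# Sums of absolute values of coefficients
-/

namespace Pool.Agent.Lib.RealGap

open Polynomial

/-- A submultiplicative norm with natural values. -/
structure Nm (R : Type) [CommRing R] where
  ν : R → ℕ
  zero : ν 0 = 0
  one : ν 1 ≤ 1
  add : ∀ a b, ν (a + b) ≤ ν a + ν b
  mul : ∀ a b, ν (a * b) ≤ ν a * ν b
  neg : ∀ a, ν (-a) = ν a

/-- The absolute value on the integers. -/
def nmInt : Nm ℤ where
  ν := Int.natAbs
  zero := rfl
  one := le_refl _
  add := Int.natAbs_add_le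
  mul := fun a b => (Int.natAbs_mul a b).le
  neg := Int.natAbs_neg

variable {R : Type} [CommRing R]

theorem Nm.sum (N : Nm R) {ι : Type*} (s : Finset ι) (f : ι → R) :
    N.ν (∑ i ∈ s, f i) ≤ ∑ i ∈ s, N.ν (f i) := by
  classical
  induction s using Finset.induction_on with
  | empty => simp [N.zero]
  | insert a s ha ih =>
    rw [Finset.sum_insert ha, Finset.sum_insert ha]
    exact (N.add _ _).trans (Nat.add_le_add_left ih _)

theorem Nm.prod (N : Nm R) {ι : Type*} (s : Finset ι) (f : ι → R) :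
    N.ν (∏ i ∈ s, f i) ≤ ∏ i ∈ s, N.ν (f i) := by
  classical
  induction s using Finset.induction_on with
  | empty => simpa using N.one
  | insert a s ha ih =>
    rw [Finset.prod_insert ha, Finset.prod_insert ha]
    exact (N.mul _ _).trans (Nat.mul_le_mul_left _ ih)

theorem Nm.lsum (N : Nm R) {α : Type*} (l : List α) (f : α → R) :
    N.ν (l.map f).sum ≤ (l.map (fun a => N.ν (f a))).sum := by
  induction l with
  | nil => simp [N.zero]
  | cons a l ih =>
    simp only [List.map_cons, List.sum_cons]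
    exact (N.add _ _).trans (Nat.add_le_add_left ih _)

/-- The sum of the norms of the coefficients. -/
noncomputable def l1 (N : Nm R) (p : R[X]) : ℕ := ∑ i ∈ p.support, N.ν (p.coeff i)

theorem l1_eq (N : Nm R) (p : R[X]) {s : Finset ℕ} (hs : p.support ⊆ s) :
    l1 N p = ∑ i ∈ s, N.ν (p.coeff i) := by
  refine Finset.sum_subset hs (fun i _ hi => ?_)
  rw [notMem_support_iff.1 hi, N.zero]

theorem l1_add (N : Nm R) (p q : R[X]) : l1 N (p + q) ≤ l1 N p + l1 N q := by
  classical
  rw [l1_eq N (p + q) (support_add), l1_eq N p (Finset.subset_union_left (s₂ := q.support)),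
    l1_eq N q (Finset.subset_union_right (s₁ := p.support)), ← Finset.sum_add_distrib]
  exact Finset.sum_le_sum (fun i _ => by rw [coeff_add]; exact N.add _ _)

theorem l1_zero (N : Nm R) : l1 N (0 : R[X]) = 0 := by simp [l1]

theorem l1_neg (N : Nm R) (p : R[X]) : l1 N (-p) = l1 N p := by
  rw [l1, l1, support_neg]
  exact Finset.sum_congr rfl (fun i _ => by rw [coeff_neg, N.neg])

theorem l1_sum (N : Nm R) {ι : Type*} (s : Finset ι) (f : ι → R[X]) :
    l1 N (∑ i ∈ s, f i) ≤ ∑ i ∈ s, l1 N (f i) := by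
  classical
  induction s using Finset.induction_on with
  | empty => simp [l1_zero]
  | insert a s ha ih =>
    rw [Finset.sum_insert ha, Finset.sum_insert ha]
    exact (l1_add N _ _).trans (Nat.add_le_add_left ih _)

theorem l1_monomial (N : Nm R) (k : ℕ) (a : R) : l1 N (monomial k a) ≤ N.ν a := by
  classical
  rw [l1_eq N _ (support_monomial_subset k a)]
  simp

theorem l1_monomial_mul (N : Nm R) (k : ℕ) (a : R) (q : R[X]) :
    l1 N (monomial k a * q) ≤ N.ν a * l1 N q := by
  classical
  conv_lhs => rw [q.as_sum_support]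
  rw [Finset.mul_sum, l1, ← l1]
  refine (l1_sum N _ _).trans ?_
  rw [l1, Finset.mul_sum]
  refine Finset.sum_le_sum (fun i _ => ?_)
  rw [monomial_mul_monomial]
  exact (l1_monomial N _ _).trans (N.mul _ _)

theorem l1_mul (N : Nm R) (p q : R[X]) : l1 N (p * q) ≤ l1 N p * l1 N q := by
  classical
  conv_lhs => rw [p.as_sum_support]
  rw [Finset.sum_mul]
  refine (l1_sum N _ _).trans ?_
  rw [l1, Finset.sum_mul]
  exact Finset.sum_le_sum (fun i _ => l1_monomial_mul N i _ q)

/-- The norm on polynomials. -/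
noncomputable def nmPoly (N : Nm R) : Nm R[X] where
  ν := l1 N
  zero := l1_zero N
  one := by
    have := l1_monomial N 0 1
    simp only [monomial_zero_one] at this
    exact this.trans N.one
  add := l1_add N
  mul := l1_mul N
  neg := l1_neg N

theorem l1_coeff (N : Nm R) (p : R[X]) (i : ℕ) : N.ν (p.coeff i) ≤ l1 N p := by
  by_cases h : i ∈ p.support
  · exact Finset.single_le_sum (f := fun i => N.ν (p.coeff i)) (fun _ _ => Nat.zero_le _) h
  · rw [notMem_support_iff.1 h, N.zero]
    exact Nat.zero_le _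

theorem l1_C (N : Nm R) (a : R) : l1 N (C a) ≤ N.ν a := l1_monomial N 0 a

theorem l1_X (N : Nm R) : l1 N (X : R[X]) ≤ 1 := (l1_monomial N 1 1).trans N.one

/-- The norm of a determinant. -/
theorem Nm.det (N : Nm R) {ι : Type} [Fintype ι] [DecidableEq ι] (A : Matrix ι ι R) {K : ℕ}
    (h : ∀ i, ∑ j, N.ν (A i j) ≤ K) : N.ν A.det ≤ K ^ Fintype.card ι := by
  rw [← Matrix.det_transpose, Matrix.det_apply']
  refine (N.sum _ _).trans ?_
  have h1 : ∀ σ : Equiv.Perm ι, N.ν (((Equiv.Perm.sign σ : ℤ) : R) *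
      ∏ i, A.transpose (σ i) i) ≤ ∏ i, N.ν (A i (σ i)) := by
    intro σ
    have h2 : N.ν (∏ i, A.transpose (σ i) i) ≤ ∏ i, N.ν (A i (σ i)) := N.prod _ _
    rcases Int.units_eq_one_or (Equiv.Perm.sign σ) with h | h
    · rw [h, Units.val_one, Int.cast_one, one_mul]; exact h2
    · rw [h, Units.val_neg, Units.val_one, Int.cast_neg, Int.cast_one, neg_one_mul, N.neg]
      exact h2
  refine (Finset.sum_le_sum (fun σ _ => h1 σ)).trans ?_
  have h3 : ∑ σ : Equiv.Perm ι, ∏ i, N.ν (A i (σ i)) ≤ ∏ i, ∑ j, N.ν (A i j) := by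
    rw [Finset.prod_univ_sum, Fintype.piFinset_univ]
    have hinj : Function.Injective (fun σ : Equiv.Perm ι => (σ : ι → ι)) :=
      fun a b h => Equiv.ext (fun i => congrFun h i)
    calc ∑ σ : Equiv.Perm ι, ∏ i, N.ν (A i (σ i))
        = ∑ f ∈ Finset.univ.map ⟨_, hinj⟩, ∏ i, N.ν (A i (f i)) := by
          rw [Finset.sum_map]; rfl
      _ ≤ _ := Finset.sum_le_sum_of_subset (Finset.subset_univ _)
  refine h3.trans ?_
  refine (Finset.prod_le_prod' (fun i _ => h i)).trans ?_
  rw [Finset.prod_const, Finset.card_univ]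

end Pool.Agent.Lib.RealGap
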